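import Pool.Agent.Q279.FB.Main

/-!
# Q1 of MP_fb382b_nt is false

The definitions are in `Pool.Agent.Q279.FB.Defs`; `Q279.FB.C₀` is the curve `y^2 = x^3 - 3x + 1` over
`ℚ` and `Q279.FB.W₀` is the same equation over `ℤ`.
-/

set_option autoImplicit false

namespace Pool.Agent.Results.MP_fb382b_nt.FailsAtFive

open Q279.FB

/-- The congruence of Q1 fails for `k = 6`, `r = 1`, `C : y^2 = x^3 - 3x + 1` (`j(C) = 2304`),
`p = 5`, `n = 1`, `l = 5`; in particular Q1 is false. -/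
theorem result : ¬ Q1 ∧
    (GoodModel C₀ 5 W₀ ∧ C₀.j = 2304 ∧ padicValRat 5 C₀.j = 0 ∧
      padicValRat 5 (C₀.j - 1728) = 0 ∧ ¬ Holds 6 1 C₀.j W₀ 5 1 5) :=
  main

end Pool.Agent.Results.MP_fb382b_nt.FailsAtFive
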